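import Pool.Agent.Helper89.OC.St3

/-! # Project OC (MP_2b6189_al), module CIS: the class inequality, summation over the primes -/

set_option autoImplicit false

namespace Pool.Agent.Helper42.OC

open Matrix ComplexConjugate Pool.Agent.Helper94.YF Pool.Agent.Helper94.YG Pool.Agent.Helper89.OS
  Pool.Agent.Helper89.OC

private theorem cis_s2_zero {L : ℕ} : s2 (0 : ZMod L) = 1 := by
  apply Matrix.SpecialLinearGroup.ext
  intro i j
  fin_cases i <;> fin_cases j <;> simp [s2, U, Lo]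

private theorem cis_s2_one {L : ℕ} : s2 (1 : ZMod L) = Sm := by
  apply Matrix.SpecialLinearGroup.ext
  intro i j
  fin_cases i <;> fin_cases j <;> simp [s2, U, Lo, Sm]

/-- orthogonality of the idempotents -/
private theorem cis_orth {L p q : ℕ} {x y : ZMod L} (hpq : Nat.Coprime p q)
    (hx : ((p ^ 1 : ℕ) : ZMod L) * x = 0) (hy : ((q ^ 1 : ℕ) : ZMod L) * y = 0) : x * y = 0 := by
  rw [pow_one] at hx hy
  have hc : IsCoprime (p : ℤ) (q : ℤ) := Nat.isCoprime_iff_coprime.mpr hpq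
  obtain ⟨u, v, huv⟩ := hc
  have h1 : ((u : ZMod L) * (p : ZMod L) + (v : ZMod L) * (q : ZMod L)) = 1 := by
    have := congrArg (fun t : ℤ => (t : ZMod L)) huv
    push_cast at this
    exact this
  calc x * y = ((u : ZMod L) * (p : ZMod L) + (v : ZMod L) * (q : ZMod L)) * (x * y) := by
        rw [h1, one_mul]
    _ = u * y * (p * x) + v * x * (q * y) := by ring
    _ = 0 := by rw [hx, hy]; ring

private theorem cis_mul {L : ℕ} (P T : Finset ℕ) (hT : T ⊆ P) (b : ℕ → ZMod L)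
    (hi : ∀ p ∈ P, b p * b p = b p) (ho : ∀ p ∈ P, ∀ q ∈ P, p ≠ q → b p * b q = 0) (q : ℕ)
    (hq : q ∈ P) : (∑ p ∈ T, b p) * b q = if q ∈ T then b q else 0 := by
  rw [Finset.sum_mul]
  by_cases hqT : q ∈ T
  · rw [if_pos hqT, Finset.sum_eq_single q]
    · exact hi q hq
    · intro r hr hrq
      exact ho r (hT hr) q hq hrq
    · intro h
      exact absurd hqT h
  · rw [if_neg hqT]
    apply Finset.sum_eq_zero
    intro r hr
    apply ho r (hT hr) q hq
    intro h
    rw [h] at hr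
    exact hqT hr

private theorem cis_idem {L : ℕ} (P T : Finset ℕ) (hT : T ⊆ P) (b : ℕ → ZMod L)
    (hi : ∀ p ∈ P, b p * b p = b p) (ho : ∀ p ∈ P, ∀ q ∈ P, p ≠ q → b p * b q = 0) :
    (∑ p ∈ T, b p) * (∑ p ∈ T, b p) = ∑ p ∈ T, b p := by
  conv_lhs => rw [Finset.mul_sum]
  apply Finset.sum_congr rfl
  intro q hq
  rw [cis_mul P T hT b hi ho q (hT hq), if_pos hq]

/-- the sum of the idempotents is `1` -/
private theorem cis_sum_one {L : ℕ} (hL : 0 < L) (P : Finset ℕ) (b : ℕ → ZMod L)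
    (hP : ∀ r : ℕ, r.Prime → r ∣ L → r ∈ P) (hb : ∀ p ∈ P, Idp L p 1 (b p))
    (ho : ∀ p ∈ P, ∀ q ∈ P, p ≠ q → b p * b q = 0) : ∑ p ∈ P, b p = 1 := by
  have hi : ∀ p ∈ P, b p * b p = b p := fun p hp => (hb p hp).idem
  have hf : (1 - ∑ p ∈ P, b p) = 0 := by
    set f : ZMod L := 1 - ∑ p ∈ P, b p with hfd
    have hfb : ∀ q ∈ P, f * b q = 0 := by
      intro q hq
      rw [hfd, sub_mul, one_mul, cis_mul P P (Finset.Subset.refl P) b hi ho q hq, if_pos hq,
        sub_self]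
    have hord : addOrderOf f = 1 := by
      by_contra hne
      obtain ⟨r, hr, hrd⟩ := Nat.exists_prime_and_dvd hne
      have hfL : addOrderOf f ∣ L := by
        apply addOrderOf_dvd_of_nsmul_eq_zero
        rw [nsmul_eq_mul, ZMod.natCast_self, zero_mul]
      have hrP : r ∈ P := hP r hr (hrd.trans hfL)
      obtain ⟨L', -, hnd, hL'⟩ := (hb r hrP).ex
      have h2 : addOrderOf f ∣ L' := by
        apply addOrderOf_dvd_of_nsmul_eq_zero
        rw [nsmul_eq_mul]
        have h3 : f = (1 - b r) * f := by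
          have := hfb r hrP
          linear_combination this
        rw [h3, ← mul_assoc, hL', zero_mul]
      exact hnd (hrd.trans h2)
    rw [AddMonoid.addOrderOf_eq_one_iff] at hord
    exact hord
  exact (sub_eq_zero.mp hf).symm

theorem hCIS : StCIS := by
  intro I _ _ Z b e hb he
  set P := Z.n.primeFactors with hPd
  have hi : ∀ p ∈ P, b p * b p = b p := fun p hp => (hb p hp).idem
  have ho : ∀ p ∈ P, ∀ q ∈ P, p ≠ q → b p * b q = 0 := by
    intro p hp q hq hpq
    have hp' : p.Prime := Nat.prime_of_mem_primeFactors hp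
    have hq' : q.Prime := Nat.prime_of_mem_primeFactors hq
    exact cis_orth ((Nat.coprime_primes hp' hq').mpr hpq) (hb p hp).ann (hb q hq).ann
  have hP : ∀ r : ℕ, r.Prime → r ∣ Z.L → r ∈ P := by
    intro r hr hrL
    have hrn : r ∣ Z.n := Helper73.OS.hLDV Helper53.OS.hXD Helper58.OS.hIDP Helper36.YF.hFUS
      Helper88.YF.hDUA Helper95.YF.hINT hRAT' I Z r hr hrL
    rw [hPd]
    exact Nat.mem_primeFactors.mpr ⟨hr, hrn, Z.n_pos.ne'⟩
  have hone : ∑ p ∈ P, b p = 1 := cis_sum_one Z.L_pos P b hP hb ho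
  have key : ∀ T : Finset ℕ, T ⊆ P →
      ‖(1 : ℂ) - Z.rho (s2 (∑ p ∈ T, b p)) Z.o Z.o‖ ≤ ∑ p ∈ T, e p := by
    intro T
    induction T using Finset.induction_on with
    | empty =>
      intro _
      rw [Finset.sum_empty, Finset.sum_empty, cis_s2_zero, map_one, Matrix.one_apply_eq, sub_self,
        norm_zero]
    | @insert q T hqT ih =>
      intro hT
      have hTP : T ⊆ P := fun x hx => hT (Finset.mem_insert_of_mem hx)
      have hqP : q ∈ P := hT (Finset.mem_insert_self q T)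
      have h1 := ih hTP
      have h2 := he q hqP (∑ p ∈ T, b p) (cis_idem P T hTP b hi ho)
        (by rw [cis_mul P T hTP b hi ho q hqP, if_neg hqT])
      rw [Finset.sum_insert hqT, Finset.sum_insert hqT, add_comm (b q)]
      calc ‖(1 : ℂ) - Z.rho (s2 (∑ p ∈ T, b p + b q)) Z.o Z.o‖
          = ‖((1 : ℂ) - Z.rho (s2 (∑ p ∈ T, b p)) Z.o Z.o) +
            (Z.rho (s2 (∑ p ∈ T, b p)) Z.o Z.o -
              Z.rho (s2 (∑ p ∈ T, b p + b q)) Z.o Z.o)‖ := by
            congr 1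
            ring
        _ ≤ ‖(1 : ℂ) - Z.rho (s2 (∑ p ∈ T, b p)) Z.o Z.o‖ +
            ‖Z.rho (s2 (∑ p ∈ T, b p)) Z.o Z.o -
              Z.rho (s2 (∑ p ∈ T, b p + b q)) Z.o Z.o‖ := norm_add_le _ _
        _ ≤ e q + ∑ p ∈ T, e p := by linarith
  have hfin := key P (Finset.Subset.refl P)
  rw [hone, cis_s2_one, Z.s_o, Z.d_o] at hfin
  have h3 : ((1 : ℂ) - ((1 : ℕ) : ℂ) / (Z.n : ℂ)) = (((1 : ℝ) - 1 / (Z.n : ℝ) : ℝ) : ℂ) := by
    push_cast
    ring
  rw [h3, Complex.norm_real] at hfin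
  exact le_trans (le_trans (le_abs_self _) (le_of_eq (Real.norm_eq_abs _).symm)) hfin

end Pool.Agent.Helper42.OC
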